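import Mathlib

/-!
# Deterministic partially blind and deterministic counter machines differ under `c ≥ 1` reversals

The language `{a^n b^m : n ≤ m}` is accepted by a deterministic quasi-realtime machine with one
counter and at most one reversal, but for no `c` is it of the form `L_{Rc}(B)` with `B` a
deterministic quasi-realtime partially blind multicounter machine.
-/

namespace Pool.Agent.Results.MP_24384b_lc.BlindDiffers

/-- A move of a machine with `k` counters: the new state, the change (`-1`, `0` or `1`) of each
counter, and whether the head advances to the next cell. -/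
@[ext] structure Move (Q : Type) (k : ℕ) where
  target : Q
  change : Fin k → SignType
  advance : Bool

/-- A one-way multicounter machine with `k` counters over the alphabet `S`. The set of moves
depends on the state, on the scanned symbol (`none` if the head is past the last cell of the input
word) and on which counters are zero (`true` means: the counter is zero). -/
structure Machine (S : Type) (k : ℕ) where
  Q : Type
  finQ : Finite Q
  start : Q
  final : Set Q
  moves : Q → Option S → (Fin k → Bool) → Set (Move Q k)

/-- A configuration: state, the part of the input word beginning with the scanned cell, and the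
contents of the counters. -/
@[ext] structure Config (Q S : Type) (k : ℕ) where
  state : Q
  rest : List S
  cnt : Fin k → ℕ

variable {S : Type} {k : ℕ}

namespace Machine

variable (M : Machine S k)

/-- The move `m` is possible in the configuration `c`: it is allowed by the move table, makes no
counter negative, and the head does not advance beyond the end of the input. -/
def Possible (c : Config M.Q S k) (m : Move M.Q k) : Prop :=
  m ∈ M.moves c.state c.rest.head? (fun i => decide (c.cnt i = 0)) ∧
    (∀ i, 0 ≤ (c.cnt i : ℤ) + (m.change i : ℤ)) ∧ (m.advance = true → c.rest ≠ [])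

/-- The configuration reached from `c` by the move `m`. -/
def next (c : Config M.Q S k) (m : Move M.Q k) : Config M.Q S k :=
  ⟨m.target, if m.advance = true then c.rest.tail else c.rest,
    fun i => ((c.cnt i : ℤ) + (m.change i : ℤ)).toNat⟩

/-- `Run c ms c'`: the sequence of moves `ms` is a computation from `c` to `c'`. -/
def Run : Config M.Q S k → List (Move M.Q k) → Config M.Q S k → Prop
  | c, [], c' => c = c'
  | c, m :: ms, c' => M.Possible c m ∧ Run (M.next c m) ms c'

/-- The initial configuration on the input word `w`. -/
def init (w : List S) : Config M.Q S k := ⟨M.start, w, fun _ => 0⟩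

/-- Deterministic: in every configuration at most one move is possible. -/
def Deterministic : Prop :=
  ∀ (c : Config M.Q S k) (m m' : Move M.Q k), M.Possible c m → M.Possible c m' → m = m'

/-- Quasi-realtime: there is `d` such that every stretch of any computation during which the head
stays on the same cell has length at most `d`. -/
def QuasiRealtime : Prop :=
  ∃ d : ℕ, ∀ (w : List S) (ms₁ ms₂ : List (Move M.Q k)) (c c' : Config M.Q S k),
    M.Run (M.init w) ms₁ c → M.Run c ms₂ c' → c'.rest = c.rest → ms₂.length ≤ d

/-- Partially blind: the moves never depend on whether counters are zero. -/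
def PartiallyBlind : Prop := ∀ q a z z', M.moves q a z = M.moves q a z'

/-- The machine makes no move when the head is past the last cell (no use of an endmarker). -/
def NoEndMoves : Prop := ∀ q z, M.moves q none z = ∅

end Machine

/-- The number of places where two consecutive entries differ. -/
def signChanges : List SignType → ℕ
  | a :: b :: l => (if a ≠ b then 1 else 0) + signChanges (b :: l)
  | _ => 0

/-- The number of reversals of a computation: the total, over all counters, of the number of
changes from increasing to decreasing or from decreasing to increasing. -/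
def reversals {Q : Type} (ms : List (Move Q k)) : ℕ :=
  ∑ i : Fin k, signChanges ((ms.map fun m => m.change i).filter fun s => decide (s ≠ 0))

/-- `L_{Rc}(M)`: the words with an accepting computation (the whole word has been read, the state
is final and all counters are zero) with at most `c` reversals. -/
def Machine.languageR (M : Machine S k) (c : ℕ) : Set (List S) :=
  {w | ∃ (ms : List (Move M.Q k)) (c' : Config M.Q S k), M.Run (M.init w) ms c' ∧ c'.rest = [] ∧
    c'.state ∈ M.final ∧ (∀ i, c'.cnt i = 0) ∧ reversals ms ≤ c}

/-- `L_{Rc}(QR-DCOUNTER)` over the alphabet `S`. If `endmarker = false`, then the machines may not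
move when the head is past the last cell; if `endmarker = true`, they may. -/
def QRDCounter (endmarker : Bool) (S : Type) (c : ℕ) : Set (Set (List S)) :=
  {L | ∃ (k : ℕ) (M : Machine S k), M.Deterministic ∧ M.QuasiRealtime ∧
    (endmarker = false → M.NoEndMoves) ∧ L = M.languageR c}

/-- `L_{Rc}(QR-DPBLIND)` over the alphabet `S` (same convention about `endmarker`). -/
def QRDPBlind (endmarker : Bool) (S : Type) (c : ℕ) : Set (Set (List S)) :=
  {L | ∃ (k : ℕ) (M : Machine S k), M.Deterministic ∧ M.QuasiRealtime ∧ M.PartiallyBlind ∧
    (endmarker = false → M.NoEndMoves) ∧ L = M.languageR c}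

/-- The language `{a^n b^m : n ≤ m}` (`false` is the letter `a`, `true` is the letter `b`). -/
def Lang : Set (List Bool) :=
  {w | ∃ n m : ℕ, n ≤ m ∧ w = List.replicate n false ++ List.replicate m true}

/-! ### Sign changes -/

lemma signChanges_append (l₁ l₁' l₂ : List SignType) (h : signChanges l₁ = signChanges l₁')
    (hl : l₁.getLast? = l₁'.getLast?) : signChanges (l₁ ++ l₂) = signChanges (l₁' ++ l₂) := by
  have key : ∀ l : List SignType, signChanges (l ++ l₂) =
      signChanges l + (match l.getLast? with
        | none => signChanges l₂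
        | some a => signChanges (a :: l₂)) := by
    intro l
    induction l with
    | nil => simp [signChanges]
    | cons a l ih =>
      cases l with
      | nil => simp [signChanges]
      | cons b l =>
        rw [List.getLast?_cons_cons]
        simp only [List.cons_append, signChanges] at ih ⊢
        rw [ih]
        ring
  rw [key, key, h, hl]

/-! ### Control-level description for deterministic partially blind machines -/

section blind

variable (M : Machine S k)

/-- the move table of a partially blind machine -/
def mv (q : M.Q) (a : Option S) : Set (Move M.Q k) := M.moves q a (fun _ => true)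

/-- `ms` leads from state `q` to state `q'` and reads `x` (up to the moment when the head leaves
the last cell of `x`), ignoring the counters. -/
inductive Reads : M.Q → List S → List (Move M.Q k) → M.Q → Prop
  | nil (q) : Reads q [] [] q
  | stay (q a x m ms q') : m ∈ mv M q (some a) → m.advance = false →
      Reads m.target (a :: x) ms q' → Reads q (a :: x) (m :: ms) q'
  | adv (q a x m ms q') : m ∈ mv M q (some a) → m.advance = true →
      Reads m.target x ms q' → Reads q (a :: x) (m :: ms) q'

/-- moves made past the end of the word -/
inductive Ends : M.Q → List (Move M.Q k) → M.Q → Prop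
  | nil (q) : Ends q [] q
  | stay (q m ms q') : m ∈ mv M q none → m.advance = false →
      Ends m.target ms q' → Ends q (m :: ms) q'

/-- the counters stay nonnegative -/
def Cnt {Q : Type} : (Fin k → ℕ) → List (Move Q k) → (Fin k → ℕ) → Prop
  | v, [], v' => v = v'
  | v, m :: ms, v' => (∀ i, 0 ≤ (v i : ℤ) + (m.change i : ℤ)) ∧
      Cnt (fun i => ((v i : ℤ) + (m.change i : ℤ)).toNat) ms v'

lemma Cnt_append {Q : Type} (ms₁ ms₂ : List (Move Q k)) (v v' : Fin k → ℕ) :
    Cnt v (ms₁ ++ ms₂) v' ↔ ∃ u, Cnt v ms₁ u ∧ Cnt u ms₂ v' := by
  induction ms₁ generalizing v with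
  | nil => simp [Cnt]
  | cons m ms ih =>
    simp only [List.cons_append, Cnt, ih]
    constructor
    · rintro ⟨h, u, h1, h2⟩
      exact ⟨u, ⟨h, h1⟩, h2⟩
    · rintro ⟨u, ⟨h, h1⟩, h2⟩
      exact ⟨h, u, h1, h2⟩

lemma Cnt_val {Q : Type} (ms : List (Move Q k)) (v v' : Fin k → ℕ) (h : Cnt v ms v') (i : Fin k) :
    (v' i : ℤ) = v i + (ms.map fun m => (m.change i : ℤ)).sum := by
  induction ms generalizing v with
  | nil =>
    simp only [Cnt] at h
    subst h
    simp
  | cons m ms ih =>
    obtain ⟨h1, h2⟩ := h
    have := ih _ h2
    rw [this]
    simp only [List.map_cons, List.sum_cons]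
    rw [Int.toNat_of_nonneg (h1 i)]
    ring

lemma abs_sign (s : SignType) : -1 ≤ (s : ℤ) ∧ (s : ℤ) ≤ 1 := by
  cases s <;> decide

lemma Cnt_le {Q : Type} (ms : List (Move Q k)) (v v' : Fin k → ℕ) (h : Cnt v ms v') (i : Fin k) :
    v i ≤ v' i + ms.length := by
  induction ms generalizing v with
  | nil =>
    simp only [Cnt] at h
    subst h
    simp
  | cons m ms ih =>
    obtain ⟨h1, h2⟩ := h
    have h3 := ih _ h2
    have h4 := abs_sign (m.change i)
    have h5 := h1 i
    simp only [List.length_cons] at h3 ⊢
    omega

/-- A run to the end of the word splits. -/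
lemma Run_split (hb : M.PartiallyBlind) (ms : List (Move M.Q k)) (q q' : M.Q) (w : List S)
    (v v' : Fin k → ℕ) (h : M.Run ⟨q, w, v⟩ ms ⟨q', [], v'⟩) :
    ∃ ms₁ ms₂ p, ms = ms₁ ++ ms₂ ∧ Reads M q w ms₁ p ∧ Ends M p ms₂ q' ∧ Cnt v ms v' := by
  induction ms generalizing q w v with
  | nil =>
    have h' : (⟨q, w, v⟩ : Config M.Q S k) = ⟨q', [], v'⟩ := h
    injection h' with h1 h2 h3
    subst h1 h2 h3
    exact ⟨[], [], q, rfl, Reads.nil q, Ends.nil q, rfl⟩
  | cons m ms ih =>
    obtain ⟨⟨h1, h2, h3⟩, h4⟩ := h
    have h5 := ih _ _ _ h4
    obtain ⟨ms₁, ms₂, p, rfl, h6, h7, h8⟩ := h5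
    simp only at h1 h2 h3
    rw [hb q w.head? _ (fun _ => true)] at h1
    cases w with
    | nil =>
      have hadv : m.advance = false := by
        by_contra hne
        exact h3 (by simpa using hne) rfl
      simp only [hadv] at h6
      have h6' : Reads M m.target [] ms₁ p := h6
      cases h6'
      exact ⟨[], m :: ms₂, q, rfl, Reads.nil q, Ends.stay q m ms₂ q' h1 hadv h7, h2, h8⟩
    | cons a w =>
      by_cases hadv : m.advance = true
      · simp only [hadv, if_true, List.tail_cons] at h6
        exact ⟨m :: ms₁, ms₂, p, rfl, Reads.adv q a w m ms₁ p h1 hadv h6, h7, h2, h8⟩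
      · simp only [hadv] at h6
        have hadv' : m.advance = false := by simpa using hadv
        exact ⟨m :: ms₁, ms₂, p, rfl, Reads.stay q a w m ms₁ p h1 hadv' h6, h7, h2, h8⟩

lemma Run_of_Ends (hb : M.PartiallyBlind) (ms : List (Move M.Q k)) (q q' : M.Q)
    (v v' : Fin k → ℕ) (h : Ends M q ms q') (hc : Cnt v ms v') :
    M.Run ⟨q, [], v⟩ ms ⟨q', [], v'⟩ := by
  induction h generalizing v with
  | nil q =>
    simp only [Cnt] at hc
    subst hc
    rfl
  | stay q m ms q' h1 h2 h3 ih =>
    refine ⟨⟨?_, hc.1, by simp [h2]⟩, ?_⟩
    · show m ∈ M.moves q none _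
      rw [hb q none _ (fun _ => true)]
      exact h1
    · have := ih _ hc.2
      simp only [Machine.next, h2]
      exact this

lemma Run_of_Reads (hb : M.PartiallyBlind) (ms ms₂ : List (Move M.Q k)) (q p q' : M.Q)
    (w y : List S) (v u v' : Fin k → ℕ) (h : Reads M q w ms p) (hc : Cnt v ms u)
    (h2 : M.Run ⟨p, y, u⟩ ms₂ ⟨q', [], v'⟩) :
    M.Run ⟨q, w ++ y, v⟩ (ms ++ ms₂) ⟨q', [], v'⟩ := by
  induction h generalizing v with
  | nil q =>
    simp only [Cnt] at hc
    subst hc
    exact h2
  | stay q a x m ms p h3 h4 h5 ih =>
    refine ⟨⟨?_, hc.1, by simp⟩, ?_⟩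
    · show m ∈ M.moves q (some a) _
      rw [hb q (some a) _ (fun _ => true)]
      exact h3
    · have := ih _ hc.2 h2
      simp only [Machine.next, h4]
      exact this
  | adv q a x m ms p h3 h4 h5 ih =>
    refine ⟨⟨?_, hc.1, by simp⟩, ?_⟩
    · show m ∈ M.moves q (some a) _
      rw [hb q (some a) _ (fun _ => true)]
      exact h3
    · have := ih _ hc.2 h2
      simp only [Machine.next, h4, if_true, List.cons_append, List.tail_cons]
      exact this

lemma mv_unique (hb : M.PartiallyBlind) (hd : M.Deterministic) (q : M.Q) (a : S)
    (m m' : Move M.Q k) (h : m ∈ mv M q (some a)) (h' : m' ∈ mv M q (some a)) : m = m' := by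
  apply hd ⟨q, [a], fun _ => 1⟩ m m'
  · refine ⟨?_, fun i => ?_, by simp⟩
    · show m ∈ M.moves q (some a) _
      rw [hb q (some a) _ (fun _ => true)]
      exact h
    · have := abs_sign (m.change i)
      simp only [Nat.cast_one]
      omega
  · refine ⟨?_, fun i => ?_, by simp⟩
    · show m' ∈ M.moves q (some a) _
      rw [hb q (some a) _ (fun _ => true)]
      exact h'
    · have := abs_sign (m'.change i)
      simp only [Nat.cast_one]
      omega

lemma Reads_unique (hb : M.PartiallyBlind) (hd : M.Deterministic) {q : M.Q} {x : List S}
    {ms ms' : List (Move M.Q k)} {p p' : M.Q} (h : Reads M q x ms p) (h' : Reads M q x ms' p') :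
    ms = ms' ∧ p = p' := by
  induction h generalizing ms' p' with
  | nil q => cases h'; exact ⟨rfl, rfl⟩
  | stay q a x m ms p h1 h2 h3 ih =>
    cases h' with
    | stay _ _ _ m' ms' _ g1 g2 g3 =>
      have := mv_unique M hb hd q a m m' h1 g1
      subst this
      obtain ⟨e1, e2⟩ := ih g3
      exact ⟨by rw [e1], e2⟩
    | adv _ _ _ m' ms' _ g1 g2 g3 =>
      have := mv_unique M hb hd q a m m' h1 g1
      subst this
      rw [h2] at g2
      exact absurd g2 (by decide)
  | adv q a x m ms p h1 h2 h3 ih =>
    cases h' with
    | stay _ _ _ m' ms' _ g1 g2 g3 =>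
      have := mv_unique M hb hd q a m m' h1 g1
      subst this
      rw [h2] at g2
      exact absurd g2 (by decide)
    | adv _ _ _ m' ms' _ g1 g2 g3 =>
      have := mv_unique M hb hd q a m m' h1 g1
      subst this
      obtain ⟨e1, e2⟩ := ih g3
      exact ⟨by rw [e1], e2⟩

lemma Reads_append {q : M.Q} {x y : List S} {ms : List (Move M.Q k)} {p : M.Q}
    (h : Reads M q (x ++ y) ms p) :
    ∃ ms₁ ms₂ r, ms = ms₁ ++ ms₂ ∧ Reads M q x ms₁ r ∧ Reads M r y ms₂ p := by
  generalize hz : x ++ y = z at h
  induction h generalizing x with
  | nil q =>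
    rw [List.append_eq_nil_iff] at hz
    obtain ⟨rfl, rfl⟩ := hz
    exact ⟨[], [], q, rfl, Reads.nil q, Reads.nil q⟩
  | stay q a z m ms p h1 h2 h3 ih =>
    cases x with
    | nil =>
      simp only [List.nil_append] at hz
      subst hz
      exact ⟨[], m :: ms, q, rfl, Reads.nil q, Reads.stay q a z m ms p h1 h2 h3⟩
    | cons b x =>
      simp only [List.cons_append, List.cons.injEq] at hz
      obtain ⟨rfl, rfl⟩ := hz
      obtain ⟨ms₁, ms₂, r, rfl, h4, h5⟩ := ih (x := b :: x) rfl
      exact ⟨m :: ms₁, ms₂, r, rfl, Reads.stay q b x m ms₁ r h1 h2 h4, h5⟩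
  | adv q a z m ms p h1 h2 h3 ih =>
    cases x with
    | nil =>
      simp only [List.nil_append] at hz
      subst hz
      exact ⟨[], m :: ms, q, rfl, Reads.nil q, Reads.adv q a z m ms p h1 h2 h3⟩
    | cons b x =>
      simp only [List.cons_append, List.cons.injEq] at hz
      obtain ⟨rfl, rfl⟩ := hz
      obtain ⟨ms₁, ms₂, r, rfl, h4, h5⟩ := ih (x := x) rfl
      exact ⟨m :: ms₁, ms₂, r, rfl, Reads.adv q b x m ms₁ r h1 h2 h4, h5⟩

/-- The data of a deterministic partially blind machine on an accepted word `x ++ y`. -/
lemma accept_data (hb : M.PartiallyBlind) (c d : ℕ)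
    (hd : ∀ (w : List S) (ms₁ ms₂ : List (Move M.Q k)) (c c' : Config M.Q S k),
      M.Run (M.init w) ms₁ c → M.Run c ms₂ c' → c'.rest = c.rest → ms₂.length ≤ d)
    (x y : List S) (h : x ++ y ∈ M.languageR c) :
    ∃ (A B C : List (Move M.Q k)) (p q f : M.Q) (u w : Fin k → ℕ),
      Reads M M.start x A p ∧ Reads M p y B q ∧ Ends M q C f ∧ f ∈ M.final ∧
      Cnt (fun _ => 0) A u ∧ Cnt u B w ∧ Cnt w C (fun _ => 0) ∧
      reversals (A ++ B ++ C) ≤ c ∧ ∀ i, w i ≤ d := by
  obtain ⟨ms, ⟨f, rest, v'⟩, hrun, hrest, hf, hzero, hrev⟩ := h
  simp only at hrest hf hzero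
  subst hrest
  obtain ⟨D, C, q, rfl, h1, h2, h3⟩ := Run_split M hb ms M.start f (x ++ y) _ v' hrun
  obtain ⟨A, B, p, rfl, h4, h5⟩ := Reads_append M h1
  obtain ⟨w, h6, h7⟩ := (Cnt_append _ _ _ _).1 h3
  obtain ⟨u, h8, h9⟩ := (Cnt_append _ _ _ _).1 h6
  have hv' : v' = fun _ => 0 := funext hzero
  subst hv'
  refine ⟨A, B, C, p, q, f, u, w, h4, h5, h2, hf, h8, h9, h7, hrev, fun i => ?_⟩
  have hlen : C.length ≤ d := by
    have r1 : M.Run (M.init (x ++ y)) (A ++ B) ⟨q, [], w⟩ := by
      have := Run_of_Reads M hb (A ++ B) [] M.start q q (x ++ y) [] (fun _ => 0) w w h1 h6 rfl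
      simpa [Machine.init] using this
    have r2 : M.Run ⟨q, [], w⟩ C ⟨f, [], fun _ => 0⟩ := Run_of_Ends M hb C q f w _ h2 h7
    exact hd _ _ _ _ _ r1 r2 rfl
  have := Cnt_le C w _ h7 i
  omega

/-- the last nonzero change of every counter -/
def lastSigns {Q : Type} (ms : List (Move Q k)) : Fin k → Option SignType :=
  fun i => ((ms.map fun m => m.change i).filter fun s => decide (s ≠ 0)).getLast?

/-- the number of reversals of every counter -/
def revs {Q : Type} (ms : List (Move Q k)) : Fin k → ℕ :=
  fun i => signChanges ((ms.map fun m => m.change i).filter fun s => decide (s ≠ 0))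

lemma signChanges_le_append (l₁ l₂ : List SignType) : signChanges l₁ ≤ signChanges (l₁ ++ l₂) := by
  induction l₁ with
  | nil => simp [signChanges]
  | cons a l ih =>
    cases l with
    | nil => simp [signChanges]
    | cons b l =>
      simp only [List.cons_append, signChanges] at ih ⊢
      omega

lemma revs_le {Q : Type} (A B : List (Move Q k)) (c : ℕ) (h : reversals (A ++ B) ≤ c)
    (i : Fin k) : revs A i ≤ c := by
  refine le_trans ?_ h
  refine le_trans ?_ (Finset.single_le_sum (f := fun i : Fin k =>
    signChanges (((A ++ B).map fun m => m.change i).filter fun s => decide (s ≠ 0)))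
    (fun _ _ => Nat.zero_le _) (Finset.mem_univ i))
  simp only [revs, List.map_append, List.filter_append]
  exact signChanges_le_append _ _

lemma reversals_congr {Q : Type} (A A' B : List (Move Q k)) (h1 : lastSigns A = lastSigns A')
    (h2 : revs A = revs A') : reversals (A ++ B) = reversals (A' ++ B) := by
  unfold reversals
  refine Finset.sum_congr rfl fun i _ => ?_
  simp only [List.map_append, List.filter_append]
  exact signChanges_append _ _ _ (congrFun h2 i) (congrFun h1 i)

/-- No deterministic quasi-realtime partially blind machine accepts `Lang`. -/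
theorem not_blind {k : ℕ} (M : Machine Bool k) (hdet : M.Deterministic) (hqr : M.QuasiRealtime)
    (hb : M.PartiallyBlind) (c : ℕ) : Lang ≠ M.languageR c := by
  intro hL
  obtain ⟨d, hd⟩ := hqr
  let a : ℕ → List Bool := fun n => List.replicate n false
  let b : ℕ → List Bool := fun n => List.replicate n true
  have hmem : ∀ n m, n ≤ m → a n ++ b m ∈ M.languageR c := by
    intro n m hnm
    rw [← hL]
    exact ⟨n, m, hnm, rfl⟩
  have hdata := fun n m hnm => accept_data M hb c d hd (a n) (b m) (hmem n m hnm)
  choose A B C p q f u w h1 h2 h3 h4 h5 h6 h7 h8 h9 using hdata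
  -- the data after reading `a^n` does not depend on `m`
  have hA : ∀ n m (hnm : n ≤ m), A n m hnm = A n n le_rfl ∧ p n m hnm = p n n le_rfl :=
    fun n m hnm => Reads_unique M hb hdet (h1 n m hnm) (h1 n n le_rfl)
  have hu : ∀ n m (hnm : n ≤ m), u n m hnm = u n n le_rfl := by
    intro n m hnm
    funext i
    have e1 := Cnt_val _ _ _ (h5 n m hnm) i
    have e2 := Cnt_val _ _ _ (h5 n n le_rfl) i
    rw [(hA n m hnm).1] at e1
    omega
  have := M.finQ
  -- pigeonhole
  let key : ℕ → M.Q × (Fin k → Option SignType) × (Fin k → Fin (c + 1)) := fun n =>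
    (p n n le_rfl, lastSigns (A n n le_rfl), fun i => ⟨revs (A n n le_rfl) i, by
      have := revs_le (A n n le_rfl) (B n n le_rfl ++ C n n le_rfl) c
        (by rw [← List.append_assoc]; exact h8 n n le_rfl) i
      omega⟩)
  obtain ⟨y, hy⟩ := Finite.exists_infinite_fiber key
  have hinf : (key ⁻¹' {y}).Infinite := Set.infinite_coe_iff.mp hy
  obtain ⟨n₀, hn₀⟩ := hinf.nonempty
  have hbox : ∀ n ∈ key ⁻¹' {y}, ∀ i, u n n le_rfl i ≤ u n₀ n₀ le_rfl i + d := by
    intro n hn i
    have hk : key n = key n₀ := by
      rw [Set.mem_preimage, Set.mem_singleton_iff] at hn hn₀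
      rw [hn, hn₀]
    have hp : p n n le_rfl = p n₀ n₀ le_rfl := congrArg Prod.fst hk
    obtain ⟨e1, e2⟩ := Reads_unique M hb hdet
      (ms := B n (max n n₀) (le_max_left _ _)) (ms' := B n₀ (max n n₀) (le_max_right _ _))
      (h2 n (max n n₀) (le_max_left _ _))
      (by
        have := h2 n₀ (max n n₀) (le_max_right _ _)
        rw [(hA n₀ _ (le_max_right _ _)).2, ← hp, ← (hA n _ (le_max_left _ _)).2] at this
        exact this)
    have f1 := Cnt_val _ _ _ (h6 n (max n n₀) (le_max_left _ _)) i
    have f2 := Cnt_val _ _ _ (h6 n₀ (max n n₀) (le_max_right _ _)) i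
    rw [hu] at f1 f2
    rw [e1] at f1
    have g1 := h9 n (max n n₀) (le_max_left _ _) i
    omega
  have hmaps : Set.MapsTo (fun n => u n n le_rfl) (key ⁻¹' {y})
      (Set.Iic (fun i => u n₀ n₀ le_rfl i + d)) := fun n hn => fun i => hbox n hn i
  obtain ⟨n, hn, n', hn', hne, heq⟩ :=
    hinf.exists_ne_map_eq_of_mapsTo hmaps (Set.finite_Iic _)
  wlog hlt : n < n' generalizing n n'
  · exact this n' hn' n hn hne.symm heq.symm (lt_of_le_of_ne (not_lt.mp hlt) hne.symm)
  have hk : key n' = key n := by
    rw [Set.mem_preimage, Set.mem_singleton_iff] at hn hn'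
    rw [hn, hn']
  have hp : p n' n' le_rfl = p n n le_rfl := congrArg Prod.fst hk
  have hls : lastSigns (A n' n' le_rfl) = lastSigns (A n n le_rfl) :=
    congrArg (fun z => z.2.1) hk
  have hrv : revs (A n' n' le_rfl) = revs (A n n le_rfl) := by
    funext i
    have := congrArg (fun z => ((z.2.2 i : Fin (c + 1)) : ℕ)) hk
    exact this
  -- the word `a^n' b^n` is accepted
  have hbad : a n' ++ b n ∈ M.languageR c := by
    refine ⟨A n' n' le_rfl ++ (B n n le_rfl ++ C n n le_rfl), ⟨f n n le_rfl, [], fun _ => 0⟩,
      ?_, rfl, h4 n n le_rfl, fun _ => rfl, ?_⟩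
    · have r1 := Run_of_Ends M hb _ _ _ _ _ (h3 n n le_rfl) (h7 n n le_rfl)
      have r2 := Run_of_Reads M hb _ _ _ _ _ _ _ _ _ _ (h2 n n le_rfl) (h6 n n le_rfl) r1
      have g5 : Cnt (fun _ => 0) (A n' n' le_rfl) (u n n le_rfl) := by
        have e := h5 n' n' le_rfl
        have heq2 : u n n le_rfl = u n' n' le_rfl := heq
        rw [heq2]
        exact e
      have g1 : Reads M M.start (a n') (A n' n' le_rfl) (p n n le_rfl) := by
        rw [← hp]
        exact h1 n' n' le_rfl
      have r3 := Run_of_Reads M hb _ _ _ _ _ _ _ _ _ _ g1 g5 r2
      simpa [Machine.init] using r3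
    · rw [reversals_congr _ _ _ hls hrv, ← List.append_assoc]
      exact h8 n n le_rfl
  rw [← hL] at hbad
  obtain ⟨n₁, m₁, hle, heq'⟩ := hbad
  have c1 : (a n' ++ b n).count false = (List.replicate n₁ false ++ List.replicate m₁ true).count false := by
    rw [heq']
  have c2 : (a n' ++ b n).count true = (List.replicate n₁ false ++ List.replicate m₁ true).count true := by
    rw [heq']
  simp [a, b, List.count_append, List.count_replicate] at c1 c2
  omega

end blind

/-! ### The deterministic one-counter machine -/

/-- The machine accepting `Lang`: in state `false` it reads letters `a` and increments; letters `b`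
decrement the counter as long as it is positive and leave it at zero afterwards (state `true`). -/
abbrev oneCounter : Machine Bool 1 where
  Q := Bool
  finQ := inferInstance
  start := false
  final := Set.univ
  moves := fun q a z =>
    match a with
    | none => ∅
    | some false => if q = false then {⟨false, fun _ => 1, true⟩} else ∅
    | some true => {⟨true, fun _ => if z 0 = true then 0 else -1, true⟩}

lemma oneCounter_unique {q a z} {m m' : Move Bool 1} (h : m ∈ oneCounter.moves q a z)
    (h' : m' ∈ oneCounter.moves q a z) : m = m' := by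
  cases a with
  | none => exact absurd h (Set.notMem_empty _)
  | some a =>
    cases a with
    | true => exact (Set.mem_singleton_iff.mp h).trans (Set.mem_singleton_iff.mp h').symm
    | false =>
      cases q with
      | false => exact (Set.mem_singleton_iff.mp h).trans (Set.mem_singleton_iff.mp h').symm
      | true => exact absurd h (by simp [oneCounter])

lemma oneCounter_advance {q a z} {m : Move Bool 1} (h : m ∈ oneCounter.moves q a z) :
    m.advance = true := by
  cases a with
  | none => exact absurd h (Set.notMem_empty _)
  | some a =>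
    cases a with
    | true => rw [Set.mem_singleton_iff.mp h]
    | false =>
      cases q with
      | false => rw [Set.mem_singleton_iff.mp h]
      | true => exact absurd h (by simp [oneCounter])

lemma oneCounter_det : oneCounter.Deterministic := fun _ _ _ h h' => oneCounter_unique h.1 h'.1

lemma run_rest_length (c c' : Config Bool Bool 1) (ms : List (Move Bool 1))
    (h : oneCounter.Run c ms c') : c'.rest.length + ms.length = c.rest.length := by
  induction ms generalizing c with
  | nil =>
    have h' : c = c' := h
    subst h'
    simp
  | cons m ms ih =>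
    obtain ⟨h1, h2⟩ := h
    have h3 := ih _ h2
    have h4 := oneCounter_advance h1.1
    have h5 := h1.2.2 h4
    have h6 : (oneCounter.next c m).rest = c.rest.tail := by
      simp [Machine.next, h4]
    rw [h6, List.length_tail] at h3
    have h7 : c.rest.length ≠ 0 := by
      rw [Ne, List.length_eq_zero_iff]
      exact h5
    simp only [List.length_cons]
    omega

lemma oneCounter_qr : oneCounter.QuasiRealtime := by
  refine ⟨0, fun w ms₁ ms₂ c c' _ h2 h3 => ?_⟩
  have := run_rest_length c c' ms₂ h2
  rw [h3] at this
  omega

/-- the computation in state `true` -/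
lemma run_true (w : List Bool) (n : ℕ) (ms : List (Move Bool 1)) (c' : Config Bool Bool 1)
    (h : oneCounter.Run ⟨true, w, fun _ => n⟩ ms c') (hr : c'.rest = []) (hz : c'.cnt 0 = 0) :
    n ≤ w.length ∧ w = List.replicate w.length true := by
  induction w generalizing n ms with
  | nil =>
    cases ms with
    | nil =>
      have h' : (⟨true, [], fun _ => n⟩ : Config Bool Bool 1) = c' := h
      subst h'
      simp only at hz
      simp [hz]
    | cons m ms => exact absurd h.1.1 (Set.notMem_empty _)
  | cons a w ih =>
    cases ms with
    | nil =>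
      have h' : (⟨true, a :: w, fun _ => n⟩ : Config Bool Bool 1) = c' := h
      subst h'
      simp at hr
    | cons m ms =>
      obtain ⟨⟨h1, h2, h3⟩, h4⟩ := h
      cases a with
      | false => exact absurd h1 (by simp [oneCounter])
      | true =>
        have hm : m = ⟨true, fun _ => if decide (n = 0) = true then 0 else -1, true⟩ :=
          Set.mem_singleton_iff.mp h1
        subst hm
        have h5 : oneCounter.Run ⟨true, w, fun _ => n - 1⟩ ms c' := by
          have e : oneCounter.next ⟨true, true :: w, fun _ => n⟩
              ⟨true, fun _ => if decide (n = 0) = true then 0 else -1, true⟩ =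
              ⟨true, w, fun _ => n - 1⟩ := by
            simp only [Machine.next, if_true, List.tail_cons]
            congr 1
            funext i
            by_cases hn : n = 0
            · simp [hn]
            · simp only [hn, decide_false, Bool.false_eq_true, if_false]
              simp only [SignType.coe_neg_one]
              omega
          rw [← e]
          exact h4
        obtain ⟨h6, h7⟩ := ih _ _ h5
        refine ⟨by simp only [List.length_cons]; omega, ?_⟩
        rw [List.length_cons, List.replicate_succ, ← h7]

lemma run_false (w : List Bool) (n : ℕ) (ms : List (Move Bool 1)) (c' : Config Bool Bool 1)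
    (h : oneCounter.Run ⟨false, w, fun _ => n⟩ ms c') (hr : c'.rest = []) (hz : c'.cnt 0 = 0) :
    ∃ j m, n + j ≤ m ∧ w = List.replicate j false ++ List.replicate m true := by
  induction w generalizing n ms with
  | nil =>
    cases ms with
    | nil =>
      have h' : (⟨false, [], fun _ => n⟩ : Config Bool Bool 1) = c' := h
      subst h'
      simp only at hz
      exact ⟨0, 0, by omega, by simp⟩
    | cons m ms => exact absurd h.1.1 (Set.notMem_empty _)
  | cons a w ih =>
    cases ms with
    | nil =>
      have h' : (⟨false, a :: w, fun _ => n⟩ : Config Bool Bool 1) = c' := h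
      subst h'
      simp at hr
    | cons m ms =>
      obtain ⟨⟨h1, h2, h3⟩, h4⟩ := h
      cases a with
      | false =>
        have hm : m = ⟨false, fun _ => 1, true⟩ := Set.mem_singleton_iff.mp h1
        subst hm
        have h5 : oneCounter.Run ⟨false, w, fun _ => n + 1⟩ ms c' := by
          have e : oneCounter.next ⟨false, false :: w, fun _ => n⟩ ⟨false, fun _ => 1, true⟩ =
              ⟨false, w, fun _ => n + 1⟩ := by
            simp only [Machine.next, if_true, List.tail_cons]
            congr 1
          rw [← e]
          exact h4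
        obtain ⟨j, m, h6, h7⟩ := ih _ _ h5
        exact ⟨j + 1, m, by omega, by rw [List.replicate_succ, List.cons_append, ← h7]⟩
      | true =>
        have hm : m = ⟨true, fun _ => if decide (n = 0) = true then 0 else -1, true⟩ :=
          Set.mem_singleton_iff.mp h1
        subst hm
        have h5 : oneCounter.Run ⟨true, w, fun _ => n - 1⟩ ms c' := by
          have e : oneCounter.next ⟨false, true :: w, fun _ => n⟩
              ⟨true, fun _ => if decide (n = 0) = true then 0 else -1, true⟩ =
              ⟨true, w, fun _ => n - 1⟩ := by
            simp only [Machine.next, if_true, List.tail_cons]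
            congr 1
            funext i
            by_cases hn : n = 0
            · simp [hn]
            · simp only [hn, decide_false, Bool.false_eq_true, if_false]
              simp only [SignType.coe_neg_one]
              omega
          rw [← e]
          exact h4
        obtain ⟨h6, h7⟩ := run_true _ _ _ _ h5 hr hz
        refine ⟨0, w.length + 1, by omega, ?_⟩
        simp only [List.replicate_zero, List.nil_append, List.replicate_succ]
        rw [← h7]

/-- the accepting computations -/
lemma exists_run (n j m : ℕ) (h : n + j ≤ m) :
    oneCounter.Run ⟨false, List.replicate j false ++ List.replicate m true, fun _ => n⟩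
      (List.replicate j ⟨false, fun _ => 1, true⟩ ++
        (List.replicate (n + j) ⟨true, fun _ => -1, true⟩ ++
          List.replicate (m - (n + j)) ⟨true, fun _ => 0, true⟩))
      ⟨if m = 0 then false else true, [], fun _ => 0⟩ := by
  have hzero : ∀ m (q : Bool), oneCounter.Run ⟨q, List.replicate m true, fun _ => 0⟩
      (List.replicate m ⟨true, fun _ => 0, true⟩)
      ⟨if m = 0 then q else true, [], fun _ => 0⟩ := by
    intro m
    induction m with
    | zero => intro q; simp [Machine.Run]
    | succ m ih =>
      intro q
      rw [List.replicate_succ, List.replicate_succ]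
      refine ⟨⟨?_, by intro i; simp, by simp⟩, ?_⟩
      · show _ ∈ ({_} : Set _)
        simp
      · have := ih true
        simp only [ite_self] at this
        simpa [Machine.next] using this
  have hneg : ∀ n m (q : Bool), n ≤ m → oneCounter.Run ⟨q, List.replicate m true, fun _ => n⟩
      (List.replicate n ⟨true, fun _ => -1, true⟩ ++
        List.replicate (m - n) ⟨true, fun _ => 0, true⟩)
      ⟨if m = 0 then q else true, [], fun _ => 0⟩ := by
    intro n
    induction n with
    | zero => intro m q _; simpa using hzero m q
    | succ n ih =>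
      intro m q hm
      obtain ⟨m, rfl⟩ : ∃ m', m = m' + 1 := ⟨m - 1, by omega⟩
      rw [List.replicate_succ (n := m), List.replicate_succ (n := n), List.cons_append]
      refine ⟨⟨?_, by intro i; simp, by simp⟩, ?_⟩
      · show _ ∈ ({_} : Set _)
        simp
      · have := ih m true (by omega)
        simp only [ite_self] at this
        rw [show m + 1 - (n + 1) = m - n by omega]
        simpa [Machine.next] using this
  induction j generalizing n with
  | zero =>
    have := hneg n m false (by omega)
    simpa using this
  | succ j ih =>
    rw [List.replicate_succ, List.replicate_succ, List.cons_append, List.cons_append]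
    refine ⟨⟨?_, by intro i; simp; omega, by simp⟩, ?_⟩
    · show _ ∈ (if false = false then ({_} : Set _) else ∅)
      simp
    · have := ih (n + 1) (by omega)
      rw [show n + 1 + j = n + (j + 1) by omega] at this
      simpa [Machine.next] using this

lemma signChanges_replicate (n : ℕ) (s : SignType) : signChanges (List.replicate n s) = 0 := by
  induction n with
  | zero => rfl
  | succ n ih =>
    cases n with
    | zero => rfl
    | succ n =>
      rw [List.replicate_succ, List.replicate_succ] 
      simp only [signChanges]
      rw [List.replicate_succ] at ih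
      simp [ih]

lemma signChanges_two (n m : ℕ) (s t : SignType) :
    signChanges (List.replicate n s ++ List.replicate m t) ≤ 1 := by
  induction n with
  | zero => simp [signChanges_replicate]
  | succ n ih =>
    cases n with
    | zero =>
      cases m with
      | zero => simp [signChanges]
      | succ m =>
        simp only [List.replicate_succ, List.replicate_zero, List.cons_append, List.nil_append]
        simp only [signChanges]
        have := signChanges_replicate (m + 1) t
        rw [List.replicate_succ] at this
        rw [this]
        split <;> simp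
    | succ n =>
      rw [List.replicate_succ, List.replicate_succ]
      simp only [List.cons_append, signChanges]
      rw [List.replicate_succ, List.cons_append] at ih
      simpa using ih

lemma oneCounter_lang (c : ℕ) (hc : 1 ≤ c) : Lang = oneCounter.languageR c := by
  apply Set.Subset.antisymm
  · rintro w ⟨n, m, hnm, rfl⟩
    refine ⟨_, _, exists_run 0 n m (by omega), rfl, trivial, fun _ => rfl, ?_⟩
    refine le_trans ?_ hc
    have : reversals (List.replicate n (⟨false, fun _ => 1, true⟩ : Move Bool 1) ++
        (List.replicate (0 + n) ⟨true, fun _ => -1, true⟩ ++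
          List.replicate (m - (0 + n)) ⟨true, fun _ => 0, true⟩)) =
        signChanges (List.replicate n (1 : SignType) ++ List.replicate n (-1 : SignType)) := by
      unfold reversals
      rw [Fin.sum_univ_one]
      congr 1
      simp only [List.map_append, List.map_replicate, List.filter_append]
      rw [List.filter_replicate, List.filter_replicate, List.filter_replicate]
      simp
    rw [this]
    exact signChanges_two _ _ _ _
  · rintro w ⟨ms, c', hrun, hrest, -, hzero, -⟩
    obtain ⟨j, m, h1, h2⟩ := run_false w 0 ms c' hrun hrest (hzero 0)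
    exact ⟨j, m, by omega, h2⟩

/-- **Main theorem.** There is a language `L` over a two-letter alphabet which, for every `c ≥ 1`,
belongs to `L_{Rc}(QR-DCOUNTER)`, but for no `c` belongs to `L_{Rc}(QR-DPBLIND)`; this holds both
when machines may, and when they may not, move past the end of the input word. In particular the
two classes differ for every `c ≥ 1`. -/
theorem result :
    (∃ L : Set (List Bool), ∀ endmarker : Bool,
      (∀ c : ℕ, 1 ≤ c → L ∈ QRDCounter endmarker Bool c) ∧
      (∀ c : ℕ, L ∉ QRDPBlind endmarker Bool c)) ∧
    ∀ (endmarker : Bool) (c : ℕ), 1 ≤ c →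
      QRDPBlind endmarker Bool c ≠ QRDCounter endmarker Bool c := by
  have h1 : ∀ (e : Bool) (c : ℕ), 1 ≤ c → Lang ∈ QRDCounter e Bool c := fun e c hc =>
    ⟨1, oneCounter, oneCounter_det, oneCounter_qr, fun _ _ _ => rfl, oneCounter_lang c hc⟩
  have h2 : ∀ (e : Bool) (c : ℕ), Lang ∉ QRDPBlind e Bool c := by
    rintro e c ⟨k, M, hd, hq, hb, -, hL⟩
    exact not_blind M hd hq hb c hL
  refine ⟨⟨Lang, fun e => ⟨h1 e, h2 e⟩⟩, fun e c hc heq => h2 e c ?_⟩
  rw [heq]
  exact h1 e c hc

end Pool.Agent.Results.MP_24384b_lc.BlindDiffers
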